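import Pool.Agent.H13.HX.TargetsK
import Pool.Agent.H12.ZD.Grow
import Pool.Agent.H69.HIT.SPD
import Pool.Agent.H48.HIT.KER

/-!
# Dense orbits on arbitrary varieties, row DNX: density of the orbit is inherited from the
specialization
-/

set_option autoImplicit false

open MvPolynomial
open Pool.Agent.H12.ZD (pmap v O Res)
open Pool.Agent.H18.HIT Pool.Agent.H18.HX Pool.Agent.H13.HX
open Pool.Agent.H69.HIT (map_iter map_eval')

namespace Pool.Agent.H77.HX

theorem pf_DNX : T_DNX := by
  classical
  intro N k _ A φ P F x hP hPx hd c hc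
  -- division by `P`
  have hPk : (finSuccEquiv k N (map A.subtype P)).Monic := by
    rw [Pool.Agent.H12.ZD.finSuccEquiv_map]
    exact hP.map _
  have hPQ : (finSuccEquiv Qb N (map φ P)).Monic := by
    rw [Pool.Agent.H12.ZD.finSuccEquiv_map]
    exact hP.map _
  have hdk : (finSuccEquiv k N (map A.subtype P)).natDegree = (finSuccEquiv A N P).natDegree := by
    rw [Pool.Agent.H12.ZD.finSuccEquiv_map, hP.natDegree_map]
  have hdQ : (finSuccEquiv Qb N (map φ P)).natDegree = (finSuccEquiv A N P).natDegree := by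
    rw [Pool.Agent.H12.ZD.finSuccEquiv_map, hP.natDegree_map]
  obtain ⟨g, c1, hcg, hdeg⟩ : ∃ g c1 : Po (N + 1) k, c = map A.subtype P * g + c1 ∧
      (finSuccEquiv k N c1).degree < (finSuccEquiv k N (map A.subtype P)).degree := by
    refine ⟨(finSuccEquiv k N).symm (finSuccEquiv k N c /ₘ finSuccEquiv k N (map A.subtype P)),
      (finSuccEquiv k N).symm (finSuccEquiv k N c %ₘ finSuccEquiv k N (map A.subtype P)), ?_, ?_⟩
    · apply (finSuccEquiv k N).injective
      rw [map_add, map_mul, AlgEquiv.apply_symm_apply, AlgEquiv.apply_symm_apply]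
      exact (Polynomial.modByMonic_add_div _ _).symm.trans (add_comm _ _)
    · rw [AlgEquiv.apply_symm_apply]
      exact Polynomial.degree_modByMonic_lt _ hPk
  have hiterk : ∀ n, (pmap (mp A.subtype F))^[n] (fun i => (x i : k)) =
      fun i => (((pmap F)^[n] x i : A) : k) := fun n => (map_iter A.subtype F x n).symm
  have hPk0 : ∀ n, eval ((pmap (mp A.subtype F))^[n] (fun i => (x i : k)))
      (map A.subtype P) = 0 := by
    intro n
    rw [hiterk]
    have h1 := map_eval' A.subtype ((pmap F)^[n] x) P
    rw [hPx n, map_zero] at h1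
    exact h1.symm
  have hc1 : ∀ n, eval ((pmap (mp A.subtype F))^[n] (fun i => (x i : k))) c1 = 0 := by
    intro n
    have h1 := hc n
    rw [hcg, map_add, map_mul, hPk0 n, zero_mul, zero_add] at h1
    exact h1
  suffices hc10 : c1 = 0 by
    rw [hc10, add_zero] at hcg
    exact ⟨g, hcg⟩
  by_contra hq0
  -- the degree in `X 0`
  have hpos : (finSuccEquiv k N c1).natDegree < (finSuccEquiv A N P).natDegree := by
    rw [← hdk]
    have h1 : finSuccEquiv k N c1 ≠ 0 := by
      intro h
      exact hq0 ((map_eq_zero_iff (finSuccEquiv k N) (finSuccEquiv k N).injective).1 h)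
    exact Polynomial.natDegree_lt_natDegree h1 hdeg
  have hsupp : ∀ m ∈ c1.support, m 0 < (finSuccEquiv A N P).natDegree := by
    rw [natDegree_finSuccEquiv, degreeOf_lt_iff (by omega)] at hpos
    exact hpos
  -- the monomials
  set r : ℕ := c1.support.card with hr
  have hr1 : 1 ≤ r := by
    rw [hr]
    exact Finset.card_pos.2 (support_nonempty.2 hq0)
  set en : Fin r ≃ c1.support := (Finset.equivFin c1.support).symm with hen
  set W : ℕ → Fin r → A := fun n j =>
    ∏ i, ((pmap F)^[n] x i) ^ ((en j : Fin (N + 1) →₀ ℕ) i) with hW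
  have hWk : ∀ n, ∑ j, (W n j : k) * coeff (en j : Fin (N + 1) →₀ ℕ) c1 = 0 := by
    intro n
    have h1 := hc1 n
    rw [hiterk, eval_eq'] at h1
    rw [← h1]
    rw [← Finset.sum_coe_sort c1.support]
    refine Fintype.sum_equiv en _ _ fun j => ?_
    rw [mul_comm, hW]
    push_cast
    rfl
  have hdet : ∃ s : Fin r → ℕ, Matrix.det (Matrix.of fun i j => φ (W (s i) j)) ≠ 0 := by
    by_contra hcon
    push Not at hcon
    obtain ⟨g, hg0, hg⟩ := Pool.Agent.H48.HIT.pf_KER Qb ℕ r (fun n j => φ (W n j)) hcon hr1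
    set q' : Po (N + 1) Qb := ∑ j, monomial (en j : Fin (N + 1) →₀ ℕ) (g j) with hq'
    have hco : ∀ j, coeff (en j : Fin (N + 1) →₀ ℕ) q' = g j := by
      intro j
      rw [hq', coeff_sum, Finset.sum_eq_single j]
      · rw [coeff_monomial, if_pos rfl]
      · intro j' _ hj
        rw [coeff_monomial, if_neg]
        intro h4
        exact hj (en.injective (Subtype.ext h4))
      · intro h4
        exact absurd (Finset.mem_univ j) h4
    have hq0' : q' ≠ 0 := by
      intro h
      apply hg0
      funext j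
      rw [← hco j, h, coeff_zero, Pi.zero_apply]
    have hdvd : map φ P ∣ q' := by
      refine hd q' fun n => ?_
      rw [hq', map_sum]
      have h2 : (pmap (mp φ F))^[n] (fun i => φ (x i)) =
          fun i => φ ((pmap F)^[n] x i) := (map_iter φ F x n).symm
      rw [h2]
      rw [← hg n]
      refine Finset.sum_congr rfl fun j _ => ?_
      rw [eval_monomial, hW]
      congr 1
      rw [Finsupp.prod_fintype _ _ (fun _ => pow_zero _)]
      change _ = φ (∏ i, ((pmap F)^[n] x i) ^ ((en j : Fin (N + 1) →₀ ℕ) i))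
      rw [map_prod]
      simp only [map_pow]
    have hdvd' : finSuccEquiv Qb N (map φ P) ∣ finSuccEquiv Qb N q' :=
      map_dvd (finSuccEquiv Qb N) hdvd
    have h5 : finSuccEquiv Qb N q' ≠ 0 := by
      intro h
      exact hq0' ((map_eq_zero_iff (finSuccEquiv Qb N) (finSuccEquiv Qb N).injective).1 h)
    have h6 := Polynomial.natDegree_le_of_dvd hdvd' h5
    have h7 : (finSuccEquiv Qb N q').natDegree < (finSuccEquiv A N P).natDegree := by
      rw [natDegree_finSuccEquiv, degreeOf_lt_iff (by omega)]
      intro m hm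
      obtain ⟨j, hj⟩ : ∃ j, (en j : Fin (N + 1) →₀ ℕ) = m := by
        by_contra hne
        push Not at hne
        apply mem_support_iff.1 hm
        rw [hq', coeff_sum]
        refine Finset.sum_eq_zero fun j _ => ?_
        rw [coeff_monomial, if_neg (hne j)]
      rw [← hj]
      exact hsupp _ (en j).2
    omega
  obtain ⟨s, hs⟩ := hdet
  have h1 : φ (Matrix.det (Matrix.of fun i j => W (s i) j)) ≠ 0 := by
    rw [RingHom.map_det]
    exact hs
  have h2 : (Matrix.det (Matrix.of fun i j => W (s i) j) : A) ≠ 0 := by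
    intro h
    rw [h, map_zero] at h1
    exact h1 rfl
  have h3 : Matrix.det (Matrix.of fun i j => (W (s i) j : k)) ≠ 0 := by
    intro h
    apply h2
    apply A.subtype_injective
    rw [RingHom.map_det, map_zero]
    exact h
  have h4 : (Matrix.of fun i j => (W (s i) j : k)).mulVec
      (fun j => coeff (en j : Fin (N + 1) →₀ ℕ) c1) = 0 := by
    funext i
    exact hWk (s i)
  have h5 := Matrix.eq_zero_of_mulVec_eq_zero h3 h4
  obtain ⟨j⟩ : Nonempty (Fin r) := ⟨⟨0, hr1⟩⟩
  exact (mem_support_iff.1 (en j).2) (congrFun h5 j)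

end Pool.Agent.H77.HX
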