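import Pool.Agent.H13.HX.TargetsK
import Pool.Agent.H12.ZD.Grow

/-!
# Dense orbits on arbitrary varieties, row RLX: a point of the specialized hypersurface is the
specialization of a point
-/

set_option autoImplicit false

open MvPolynomial
open Pool.Agent.H12.ZD (pmap v O Res)
open Pool.Agent.H18.HIT Pool.Agent.H18.HX Pool.Agent.H13.HX

namespace Pool.Agent.H77.HX

/-- extension of homomorphisms to an algebraically closed field along integral extensions -/
theorem ext_hom {A B L : Type} [CommRing A] [CommRing B] [IsDomain B] [Field L] [IsAlgClosed L]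
    (f : A →+* B) (hf : f.IsIntegral) (hinj : Function.Injective f) (φ : A →+* L) :
    ∃ ψ : B →+* L, ∀ a, ψ (f a) = φ a := by
  let _ : Algebra A B := f.toAlgebra
  have hint : Algebra.IsIntegral A B := ⟨hf⟩
  have hp : (RingHom.ker φ).IsPrime := RingHom.ker_isPrime φ
  obtain ⟨Q, hQ, hQp⟩ := Ideal.exists_ideal_over_prime_of_isIntegral_of_isDomain
    (S := B) (RingHom.ker φ) (by
      rw [(RingHom.injective_iff_ker_eq_bot (algebraMap A B)).1 hinj]
      exact bot_le)
  have hlies : Q.LiesOver (RingHom.ker φ) := ⟨hQp.symm⟩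
  let g : A ⧸ RingHom.ker φ →+* L := Ideal.Quotient.lift (RingHom.ker φ) φ (fun a ha => ha)
  have hg : Function.Injective g := RingHom.lift_injective_of_ker_le_ideal _ _ le_rfl
  let _ : Algebra (A ⧸ RingHom.ker φ) L := g.toAlgebra
  have hfs : FaithfulSMul (A ⧸ RingHom.ker φ) L :=
    (faithfulSMul_iff_algebraMap_injective _ _).mpr hg
  have hdom : IsDomain (A ⧸ RingHom.ker φ) := Ideal.Quotient.isDomain _
  have hdomB : IsDomain (B ⧸ Q) := Ideal.Quotient.isDomain _
  have halg : Algebra.IsAlgebraic (A ⧸ RingHom.ker φ) (B ⧸ Q) :=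
    Algebra.IsIntegral.isAlgebraic
  let l : (B ⧸ Q) →ₐ[A ⧸ RingHom.ker φ] L := IsAlgClosed.lift
  refine ⟨(l : (B ⧸ Q) →+* L).comp (Ideal.Quotient.mk Q), fun a => ?_⟩
  have h1 : Ideal.Quotient.mk Q (f a) = algebraMap (A ⧸ RingHom.ker φ) (B ⧸ Q)
      (Ideal.Quotient.mk _ a) := rfl
  rw [RingHom.comp_apply, h1]
  have h2 := l.commutes (Ideal.Quotient.mk _ a)
  exact h2

theorem pf_RLX : T_RLX := by
  classical
  intro N k _ _ A φ P hP x' w hx' hw
  -- the polynomial in one variable
  obtain ⟨p, hp⟩ : ∃ p, p = (finSuccEquiv A N P).map (eval w) := ⟨_, rfl⟩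
  have hpm : p.Monic := by
    rw [hp]
    exact hP.map _
  have hev : ∀ {S : Type} [CommRing S] (ψ : A →+* S) (t : S),
      eval (Fin.cons t (fun i => ψ (w i)) : Fin (N + 1) → S) (map ψ P) = (p.map ψ).eval t := by
    intro S _ ψ t
    rw [eval_eq_eval_mv_eval', Pool.Agent.H12.ZD.finSuccEquiv_map, Polynomial.map_map, hp,
      Polynomial.map_map]
    congr 2
    refine MvPolynomial.ringHom_ext (fun a => ?_) (fun i => ?_)
    · simp
    · simp
  -- the integral closure
  obtain ⟨A', hA'⟩ : ∃ A' : Subring k, A' = (integralClosure A k).toSubring := ⟨_, rfl⟩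
  have hmem : ∀ z : k, z ∈ A' ↔ IsIntegral A z := by
    intro z
    rw [hA']
    rfl
  have hle : A ≤ A' := fun a ha => (hmem a).2 (isIntegral_algebraMap (x := (⟨a, ha⟩ : A)))
  have hinj : Function.Injective (Subring.inclusion hle) := Subring.inclusion_injective hle
  have hint : (Subring.inclusion hle).IsIntegral := by
    rintro ⟨b, hb⟩
    obtain ⟨q, hq, hqb⟩ := (hmem b).1 hb
    refine ⟨q, hq, ?_⟩
    apply A'.subtype_injective
    rw [Polynomial.hom_eval₂, map_zero]
    exact hqb
  obtain ⟨φ', hφ'⟩ := ext_hom (Subring.inclusion hle) hint hinj φ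
  -- the roots
  have hpk : (p.map A.subtype).Monic := hpm.map _
  have hsplit : p.map A.subtype =
      ((p.map A.subtype).roots.map fun a => Polynomial.X - Polynomial.C a).prod :=
    (IsAlgClosed.splits (p.map A.subtype)).eq_prod_roots_of_monic hpk
  have hroot : ∀ r ∈ (p.map A.subtype).roots, r ∈ A' := by
    intro r hr
    rw [hmem]
    refine ⟨p, hpm, ?_⟩
    have h1 := (Polynomial.mem_roots'.1 hr).2
    rw [Polynomial.IsRoot.def, Polynomial.eval_map] at h1
    exact h1
  let g : k → A' := fun r => if h : r ∈ A' then ⟨r, h⟩ else 0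
  have hg : ∀ r ∈ (p.map A.subtype).roots, ((g r : A') : k) = r := by
    intro r hr
    change ((if h : r ∈ A' then ⟨r, h⟩ else 0 : A') : k) = r
    rw [dif_pos (hroot r hr)]
  have hfac : p.map (Subring.inclusion hle) =
      ((p.map A.subtype).roots.map fun a => Polynomial.X - Polynomial.C (g a)).prod := by
    apply Polynomial.map_injective A'.subtype A'.subtype_injective
    rw [Polynomial.map_map, Polynomial.map_multiset_prod, Multiset.map_map]
    have h1 : A'.subtype.comp (Subring.inclusion hle) = A.subtype := rfl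
    rw [h1]
    refine hsplit.trans ?_
    congr 1
    refine Multiset.map_congr rfl fun r hr => ?_
    rw [Function.comp_apply, Polynomial.map_sub, Polynomial.map_X, Polynomial.map_C]
    congr 2
    exact (hg r hr).symm
  have hx0 : (p.map φ).eval (x' 0) = 0 := by
    rw [← hev φ (x' 0), ← hx']
    congr 1
    congr 1
    funext i
    refine Fin.cases rfl (fun j => ?_) i
    exact hw j
  have hcomp : φ'.comp (Subring.inclusion hle) = φ := RingHom.ext hφ'
  rw [← hcomp, ← Polynomial.map_map, hfac, Polynomial.map_multiset_prod, Multiset.map_map,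
    Polynomial.eval_multiset_prod, Multiset.map_map, Multiset.prod_eq_zero_iff,
    Multiset.mem_map] at hx0
  obtain ⟨r, hr, hr0⟩ := hx0
  rw [Function.comp_apply, Function.comp_apply, Polynomial.map_sub, Polynomial.map_X,
    Polynomial.map_C, Polynomial.eval_sub, Polynomial.eval_X, Polynomial.eval_C,
    sub_eq_zero] at hr0
  refine ⟨A', hle, φ', g r, hφ', hr0.symm, ?_⟩
  rw [hev (Subring.inclusion hle) (g r)]
  apply A'.subtype_injective
  rw [map_zero, Polynomial.eval_map, Polynomial.hom_eval₂]
  have h1 := (Polynomial.mem_roots'.1 hr).2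
  rw [Polynomial.IsRoot.def, Polynomial.eval_map] at h1
  have h2 : A'.subtype (g r) = r := hg r hr
  rw [h2]
  exact h1

end Pool.Agent.H77.HX
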